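import Pool.Agent.Helper85.BPM.Main

set_option autoImplicit false

namespace Helper72.Old.AllExponents

/-- For every `P` there is `N` such that for all real `p ∈ [2, P]`, all `n ≥ N` and all Schwartz `f`,
`‖T^n f‖_p ≤ n^(1-2/p) (p-1) ‖f‖_p`. -/
theorem result (P : ℝ) : ∃ N : ℕ, ∀ n : ℕ, N ≤ n → ∀ p : ℝ, 2 ≤ p → p ≤ P →
    ∀ f : SchwartzMap ℂ ℂ,
      MeasureTheory.eLpNorm
        (fun z : ℂ => ∫ ξ : ℂ,
          Complex.exp (2 * (Real.pi : ℂ) * Complex.I * ((z.re * ξ.re + z.im * ξ.im : ℝ) : ℂ)) *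
            ((starRingEnd ℂ ξ / ξ) ^ n *
              ∫ w : ℂ, Complex.exp (-(2 * (Real.pi : ℂ) * Complex.I *
                ((w.re * ξ.re + w.im * ξ.im : ℝ) : ℂ))) * f w))
        (ENNReal.ofReal p) MeasureTheory.volume
      ≤ ENNReal.ofReal ((n : ℝ) ^ (1 - 2 / p) * (p - 1)) *
        MeasureTheory.eLpNorm (fun z : ℂ => f z) (ENNReal.ofReal p) MeasureTheory.volume := by
  obtain ⟨N, hN⟩ := Helper85.BP.P.all_range P
  exact ⟨N, fun n hn p h1 h2 f => hN n hn p h1 h2 f⟩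

end Helper72.Old.AllExponents
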