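import Pool.Agent.Helper72.BAM.Fin

set_option autoImplicit false

namespace Helper72.Old.AsymptoticBound

/-- For every `P` there is `N` such that for all real `p ∈ [2, P]`, all `n ≥ N` and all Schwartz `f`,
`‖T^n f‖_p ≤ c(p) n^(1-2/p) (p-1) ‖f‖_p`, where `c(p) = 1` if `3.77 ≤ p ≤ 4.38` or `p ≥ 5.43`,
`c(p) = 1.033` if `p < 3.77`, and `c(p) = 1.006` for the remaining `p` (between 4.38 and 5.43). -/
theorem result (P : ℝ) : ∃ N : ℕ, ∀ n : ℕ, N ≤ n → ∀ p : ℝ, 2 ≤ p → p ≤ P →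
    ∀ f : SchwartzMap ℂ ℂ,
      MeasureTheory.eLpNorm
        (fun z : ℂ => ∫ ξ : ℂ,
          Complex.exp (2 * (Real.pi : ℂ) * Complex.I * ((z.re * ξ.re + z.im * ξ.im : ℝ) : ℂ)) *
            ((starRingEnd ℂ ξ / ξ) ^ n *
              ∫ w : ℂ, Complex.exp (-(2 * (Real.pi : ℂ) * Complex.I *
                ((w.re * ξ.re + w.im * ξ.im : ℝ) : ℂ))) * f w))
        (ENNReal.ofReal p) MeasureTheory.volume
      ≤ ENNReal.ofReal
          ((if (3.77 ≤ p ∧ p ≤ 4.38) ∨ 5.43 ≤ p then 1 else if p < 3.77 then 1.033 else 1.006) *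
            ((n : ℝ) ^ (1 - 2 / p) * (p - 1))) *
        MeasureTheory.eLpNorm (fun z : ℂ => f z) (ENNReal.ofReal p) MeasureTheory.volume := by
  classical
  have hA2 : 0 < Helper72.BA.Ak 2 := Helper72.BA.Ak_pos 2 (by norm_num)
  have hA3 : 0 < Helper72.BA.Ak 3 := Helper72.BA.Ak_pos 3 (by norm_num)
  -- [2, 3.77]
  obtain ⟨N1, h1⟩ := Helper72.BA.P.interval_bound 1 le_rfl 2 3.77 1.033 (by norm_num) (by norm_num)
    (by
      intro p θ hp h1 h2
      norm_num at hp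
      rw [Helper72.BA.P.Ak_one, Real.one_rpow, one_mul]
      have hp' : 1 / p = (1 - θ) / 2 + θ / 4 := by rw [← hp]; ring
      rcases eq_or_lt_of_le h1 with h | h
      · subst h
        have : θ = 0 := by linarith
        subst this
        norm_num
      · exact Helper72.BA.P.range_d p θ hp' h (by linarith))
  -- [3.77, 4]
  obtain ⟨N2, h2⟩ := Helper72.BA.P.interval_bound 1 le_rfl 3.77 4 1 (by norm_num) (by norm_num)
    (by
      intro p θ hp h1 h2
      norm_num at hp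
      rw [Helper72.BA.P.Ak_one, Real.one_rpow, one_mul, one_mul]
      have hp' : 1 / p = (1 - θ) / 2 + θ / 4 := by rw [← hp]; ring
      exact Helper72.BA.P.range_a p θ hp' h1 h2)
  -- [4, 4.38]
  obtain ⟨N3, h3⟩ := Helper72.BA.P.interval_bound 2 (by norm_num) 4 4.38 1 (by norm_num) (by norm_num)
    (by
      intro p θ hp h1 h2
      norm_num at hp
      rw [one_mul]
      have hp' : 1 / p = (1 - θ) / 4 + θ / 6 := by rw [← hp]; ring
      exact Helper72.BA.P.range_b p θ hp' (Or.inl ⟨h1, h2⟩))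
  -- [4.38, 5.43]
  obtain ⟨N4, h4⟩ := Helper72.BA.P.interval_bound 2 (by norm_num) 4.38 5.43 1.006 (by norm_num)
    (by norm_num)
    (by
      intro p θ hp h1 h2
      norm_num at hp
      have hp' : 1 / p = (1 - θ) / 4 + θ / 6 := by rw [← hp]; ring
      exact Helper72.BA.P.range_e p θ hp' (by linarith) (by linarith))
  -- [5.43, 6]
  obtain ⟨N5, h5⟩ := Helper72.BA.P.interval_bound 2 (by norm_num) 5.43 6 1 (by norm_num) (by norm_num)
    (by
      intro p θ hp h1 h2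
      norm_num at hp
      rw [one_mul]
      have hp' : 1 / p = (1 - θ) / 4 + θ / 6 := by rw [← hp]; ring
      exact Helper72.BA.P.range_b p θ hp' (Or.inr ⟨h1, h2⟩))
  -- [2k, 2k+2], k ≥ 3
  have H6 : ∀ k : ℕ, ∃ N : ℕ, 3 ≤ k → ∀ n : ℕ, N ≤ n → ∀ p : ℝ, 2 * k ≤ p → p ≤ 2 * k + 2 →
      ∀ f : SchwartzMap ℂ ℂ,
      MeasureTheory.eLpNorm (fun z => Helper72.BA.Tn n f z) (ENNReal.ofReal p) MeasureTheory.volume ≤
      ENNReal.ofReal (1 * ((n:ℝ) ^ (1 - 2 / p) * (p - 1))) *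
        MeasureTheory.eLpNorm (fun z => f z) (ENNReal.ofReal p) MeasureTheory.volume := by
    intro k
    by_cases hk : 3 ≤ k
    · obtain ⟨N, hN⟩ := Helper72.BA.P.interval_bound k (by omega) (2 * k) (2 * k + 2) 1 le_rfl le_rfl
        (by
          intro p θ hp h1 h2
          rw [one_mul]
          exact Helper72.BA.P.range_c k hk p θ hp h1 h2)
      exact ⟨N, fun _ => hN⟩
    · exact ⟨0, fun h => absurd h hk⟩
  choose N6 h6 using H6
  set K : ℕ := ⌈P⌉₊ + 1 with hK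
  refine ⟨max (max (max N1 N2) (max N3 N4)) (max N5 ((Finset.range K).sup N6)),
    fun n hn p hp1 hp2 f => ?_⟩
  have e1 : N1 ≤ n := le_trans (by simp) hn
  have e2 : N2 ≤ n := le_trans (by simp) hn
  have e3 : N3 ≤ n := le_trans (by simp) hn
  have e4 : N4 ≤ n := le_trans (by simp) hn
  have e5 : N5 ≤ n := le_trans (by simp) hn
  have e6 : (Finset.range K).sup N6 ≤ n := le_trans (by simp) hn
  rcases lt_or_ge p 3.77 with c1 | c1
  · have hc : ¬ ((3.77 ≤ p ∧ p ≤ 4.38) ∨ 5.43 ≤ p) := by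
      rintro (⟨h, _⟩ | h) <;> linarith
    rw [if_neg hc, if_pos c1]
    exact h1 n e1 p hp1 c1.le f
  rcases le_or_gt p 4.38 with c2 | c2
  · rw [if_pos (Or.inl ⟨c1, c2⟩)]
    rcases le_or_gt p 4 with c3 | c3
    · exact h2 n e2 p c1 c3 f
    · exact h3 n e3 p c3.le c2 f
  rcases lt_or_ge p 5.43 with c3 | c3
  · have hc : ¬ ((3.77 ≤ p ∧ p ≤ 4.38) ∨ 5.43 ≤ p) := by
      rintro (⟨_, h⟩ | h) <;> linarith
    rw [if_neg hc, if_neg (by linarith)]
    exact h4 n e4 p c2.le c3.le f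
  rw [if_pos (Or.inr c3)]
  rcases le_or_gt p 6 with c4 | c4
  · exact h5 n e5 p c3 c4 f
  · -- p > 6
    set k : ℕ := ⌊p / 2⌋₊ with hk
    have hk1 : (k : ℝ) ≤ p / 2 := Nat.floor_le (by linarith)
    have hk2 : p / 2 < k + 1 := Nat.lt_floor_add_one _
    have hk3 : 3 ≤ k := by
      rw [hk, Nat.le_floor_iff (by linarith)]
      push_cast
      linarith
    have hkK : k < K := by
      have h7 : (k : ℝ) ≤ P := by linarith
      have h8 : (k : ℝ) ≤ (⌈P⌉₊ : ℝ) := h7.trans (Nat.le_ceil P)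
      have h9 : k ≤ ⌈P⌉₊ := by exact_mod_cast h8
      omega
    have e7 : N6 k ≤ n := (Finset.le_sup (f := N6) (Finset.mem_range.2 hkK)).trans e6
    exact h6 k hk3 n e7 p (by linarith) (by linarith) f

end Helper72.Old.AsymptoticBound
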