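import Pool.Agent.Helper72.BAM.Poch

set_option autoImplicit false

namespace Helper72.Old.EvenExponents

/-- For every even exponent `p = 2k ≥ 4` and every `ε > 0` there is `N` such that for all `n ≥ N` and
all Schwartz `f`, `‖T^n f‖_p ≤ (1+ε) (1/q)_n / (1/p)_n ‖f‖_p`, where `1/q = 1 - 1/p` and `(a)_n` is the
rising factorial, so `(1/q)_n / (1/p)_n` is the product of `(1 - 1/p + j) / (1/p + j)` over `j < n`. -/
theorem result (k : ℕ) (hk : 2 ≤ k) (ε : ℝ) (hε : 0 < ε) : ∃ N : ℕ, ∀ n : ℕ, N ≤ n →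
    ∀ f : SchwartzMap ℂ ℂ,
      MeasureTheory.eLpNorm
        (fun z : ℂ => ∫ ξ : ℂ,
          Complex.exp (2 * (Real.pi : ℂ) * Complex.I * ((z.re * ξ.re + z.im * ξ.im : ℝ) : ℂ)) *
            ((starRingEnd ℂ ξ / ξ) ^ n *
              ∫ w : ℂ, Complex.exp (-(2 * (Real.pi : ℂ) * Complex.I *
                ((w.re * ξ.re + w.im * ξ.im : ℝ) : ℂ))) * f w))
        (ENNReal.ofReal (2 * k)) MeasureTheory.volume
      ≤ ENNReal.ofReal ((1 + ε) * ∏ j ∈ Finset.range n,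
          ((1 - 1 / (2 * k : ℝ) + j) / (1 / (2 * k : ℝ) + j))) *
        MeasureTheory.eLpNorm (fun z : ℂ => f z) (ENNReal.ofReal (2 * k)) MeasureTheory.volume :=
  Helper72.BA.P.even_poch k (by omega) ε hε

end Helper72.Old.EvenExponents
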